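import Pool.Agent.Q323.SplitCG.Blow
import Pool.Agent.H495R3.Tri

/-!
# Recognizing split clique graphs with a stable side of bounded size: the algorithm
-/

set_option autoImplicit false

namespace Pool.Agent.Q323.SplitCG

open Pool.Agent.H601R2.PCG Pool.Agent.NPC Pool.Agent.H622R2 Pool.Agent.H495R3

/-- A finite basis of a set of vectors, for the componentwise order on vectors with the same
zeros. -/
theorem exists_basis {ι : Type} [Finite ι] (𝒢 : Set (ι → ℕ)) :
    ∃ F : List (ι → ℕ), (∀ μ ∈ F, μ ∈ 𝒢) ∧
      ∀ v ∈ 𝒢, ∃ μ ∈ F, (∀ t, μ t ≤ v t) ∧ ∀ t, μ t = 0 → v t = 0 := by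
  classical
  have := Fintype.ofFinite ι
  have hwqo : WellQuasiOrderedLE (ι → ℕ) := inferInstance
  let 𝒢T : Finset ι → Set (ι → ℕ) := fun T => {v | v ∈ 𝒢 ∧ ∀ t, t ∈ T ↔ v t = 0}
  have hfin : ∀ T, {v | Minimal (· ∈ 𝒢T T) v}.Finite := fun T =>
    WellQuasiOrderedLE.finite_of_isAntichain (setOfPred_minimal_antichain _)
  let F : Finset (ι → ℕ) := Finset.univ.biUnion (fun T => (hfin T).toFinset)
  refine ⟨F.toList, ?_, ?_⟩
  · intro μ hμ
    rw [Finset.mem_toList, Finset.mem_biUnion] at hμ
    obtain ⟨T, -, hT⟩ := hμ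
    rw [Set.Finite.mem_toFinset] at hT
    exact hT.1.1
  · intro v hv
    let T : Finset ι := Finset.univ.filter (fun t => v t = 0)
    have hvT : v ∈ 𝒢T T := ⟨hv, fun t => by simp [T]⟩
    obtain ⟨μ, hμv, hμ⟩ := exists_minimal_le_of_wellFoundedLT (· ∈ 𝒢T T) v hvT
    refine ⟨μ, ?_, hμv, ?_⟩
    · rw [Finset.mem_toList, Finset.mem_biUnion]
      exact ⟨T, Finset.mem_univ _, (hfin T).mem_toFinset.2 hμ⟩
    · intro t ht
      exact (hvT.2 t).1 ((hμ.1.2 t).2 ht)

/-! ### Lists -/

/-- The lists without repetitions of at most `k` numbers less than `n`. -/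
def tup (n : ℕ) : ℕ → List (List ℕ)
  | 0 => [[]]
  | k + 1 => (tup n k).flatMap fun l =>
      l :: ((List.range n).filter fun i => !decide (i ∈ l)).map (fun i => i :: l)

theorem mem_tup {n : ℕ} : ∀ {k : ℕ} {l : List ℕ},
    l ∈ tup n k ↔ l.length ≤ k ∧ l.Nodup ∧ ∀ i ∈ l, i < n
  | 0, l => by
    simp only [tup, List.mem_singleton, Nat.le_zero, List.length_eq_zero_iff]
    constructor
    · rintro rfl; simp
    · exact fun h => h.1
  | k + 1, l => by
    simp only [tup, List.mem_flatMap, List.mem_cons, List.mem_map, List.mem_filter,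
      List.mem_range, Bool.not_eq_true', decide_eq_false_iff_not]
    constructor
    · rintro ⟨l', hl', rfl | ⟨i, ⟨hi, hil⟩, rfl⟩⟩
      · obtain ⟨h1, h2, h3⟩ := mem_tup.1 hl'
        exact ⟨by omega, h2, h3⟩
      · obtain ⟨h1, h2, h3⟩ := mem_tup.1 hl'
        refine ⟨by simp; omega, List.nodup_cons.2 ⟨hil, h2⟩, ?_⟩
        intro j hj
        rcases List.mem_cons.1 hj with rfl | hj
        · exact hi
        · exact h3 j hj
    · rintro ⟨h1, h2, h3⟩
      cases l with
      | nil => exact ⟨[], mem_tup.2 ⟨by simp, by simp, by simp⟩, Or.inl rfl⟩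
      | cons i l =>
        rw [List.nodup_cons] at h2
        refine ⟨l, mem_tup.2 ⟨?_, h2.2, fun j hj => h3 j (List.mem_cons_of_mem _ hj)⟩,
          Or.inr ⟨i, ⟨h3 i List.mem_cons_self, h2.1⟩, rfl⟩⟩
        simp at h1
        exact h1

theorem tup_poly (k : ℕ) : Poly (fun M : List (List Bool) => tup M.length k) := by
  induction k with
  | zero => exact NPC.Poly.const _
  | succ k ih =>
    have hr : Poly (fun M : List (List Bool) => List.range M.length) :=
      Poly.range_length Poly.id
    unfold tup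
    refine Poly.flatMap (F := fun (M : List (List Bool)) l =>
      l :: ((List.range M.length).filter fun i => !decide (i ∈ l)).map (fun i => i :: l)) ih ?_
    refine Poly.cons (Poly.snd Poly.id) ?_
    refine NPC.Poly.map (F := fun (p : List (List Bool) × List ℕ) i => i :: p.2) ?_ (by fun_prop)
    refine Poly.filter (p := fun (p : List (List Bool) × List ℕ) i => !decide (i ∈ p.2))
      (hr.comp (Poly.fst Poly.id)) (by fun_prop)

/-- The list is the stable side of a normalised split partition. -/
def okL (p : List (List Bool) × List ℕ) : Bool :=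
  (p.2.all fun i => p.2.all fun j => !adjB p.1 i j) &&
  ((List.range p.1.length).all fun x => decide (x ∈ p.2) ||
    (List.range p.1.length).all fun y => decide (y ∈ p.2) || (decide (x = y) || adjB p.1 x y)) &&
  ((List.range p.1.length).all fun x => decide (x ∈ p.2) || p.2.any fun i => adjB p.1 x i)

theorem okL_poly : Poly okL := by
  unfold okL
  have hr1 : Poly (fun p : (List (List Bool) × List ℕ) => List.range p.1.length) :=
    Poly.range_length (Poly.fst Poly.id)
  refine Poly.and (Poly.and ?_ ?_) ?_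
  · fun_prop
  · refine Poly.all (p := fun (p : List (List Bool) × List ℕ) x => decide (x ∈ p.2) ||
      (List.range p.1.length).all fun y => decide (y ∈ p.2) ||
        (decide (x = y) || adjB p.1 x y)) hr1 ?_
    refine Poly.or (by fun_prop) ?_
    refine Poly.all (p := fun (p : (List (List Bool) × List ℕ) × ℕ) y => decide (y ∈ p.1.2) ||
        (decide (p.2 = y) || adjB p.1.1 p.2 y)) (hr1.comp (Poly.fst Poly.id)) ?_
    fun_prop
  · refine Poly.all (p := fun (p : List (List Bool) × List ℕ) x => decide (x ∈ p.2) ||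
      p.2.any fun i => adjB p.1 x i) hr1 ?_
    fun_prop

/-- The number of vertices outside of the list with the type `t`. -/
def cntT (t : List Bool) (p : List (List Bool) × List ℕ) : ℕ :=
  ((List.range p.1.length).filter fun x => !decide (x ∈ p.2) &&
    decide (p.2.map (fun i => adjB p.1 x i) = t)).length

theorem cntT_poly (t : List Bool) : Poly (cntT t) := by
  unfold cntT
  have hr1 : Poly (fun p : (List (List Bool) × List ℕ) => List.range p.1.length) :=
    Poly.range_length (Poly.fst Poly.id)
  refine Poly.length (Poly.filter (p := fun (p : List (List Bool) × List ℕ) x =>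
    !decide (x ∈ p.2) && decide (p.2.map (fun i => adjB p.1 x i) = t)) hr1 ?_)
  fun_prop

/-- Finite disjunctions. -/
theorem any_poly {α ι : Type} [TEnc α] (F : List ι) (f : ι → α → Bool)
    (h : ∀ i, Poly (f i)) : Poly (fun a => F.any (fun i => f i a)) := by
  induction F with
  | nil => exact NPC.Poly.const _
  | cons i F ih =>
    simp only [List.any_cons]
    exact Poly.or (h i) ih

theorem all_poly {α ι : Type} [TEnc α] (F : List ι) (f : ι → α → Bool)
    (h : ∀ i, Poly (f i)) : Poly (fun a => F.all (fun i => f i a)) := by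
  induction F with
  | nil => exact NPC.Poly.const _
  | cons i F ih =>
    simp only [List.all_cons]
    exact Poly.and (h i) ih

/-- The test for a vector. -/
noncomputable def test (r : ℕ) (μ : (Fin r → Bool) → ℕ) (p : List (List Bool) × List ℕ) : Bool :=
  decide (p.2.length = r) && (Finset.univ : Finset (Fin r → Bool)).toList.all fun t =>
    decide (μ t ≤ cntT (List.ofFn t) p) &&
      (!decide (μ t = 0) || decide (cntT (List.ofFn t) p = 0))

theorem test_poly (r : ℕ) (μ : (Fin r → Bool) → ℕ) : Poly (test r μ) := by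
  unfold test
  refine Poly.and (by fun_prop) (all_poly _ _ fun t => ?_)
  have := cntT_poly (List.ofFn t)
  exact Poly.and (Poly.decide_le (NPC.Poly.const _) this)
    (Poly.or (NPC.Poly.const _) (Poly.decide_eq this (NPC.Poly.const _)))

/-- The vectors of clique graphs. -/
def goodVec (r : ℕ) : Set ((Fin r → Bool) → ℕ) :=
  {μ | ∃ (n : ℕ) (G : SimpleGraph (Fin n)) (l : Fin r → Fin n), IsNS G r l ∧ IsCliqueGraph G ∧
    ∀ t, (cls G l t).ncard = μ t}

/-- The finite basis. -/
noncomputable def basis (r : ℕ) : List ((Fin r → Bool) → ℕ) :=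
  (exists_basis (goodVec r)).choose

/-- The algorithm. -/
noncomputable def alg (k : ℕ) (M : List (List Bool)) : Bool :=
  (tup M.length k).any fun l => okL (M, l) && (List.range (k + 1)).any fun r =>
    (basis r).any fun μ => test r μ (M, l)

theorem alg_poly (k : ℕ) : Poly (alg k) := by
  unfold alg
  refine Poly.any (p := fun (M : List (List Bool)) l => okL (M, l) &&
    (List.range (k + 1)).any fun r => (basis r).any fun μ => test r μ (M, l)) (tup_poly k) ?_
  refine Poly.and okL_poly (any_poly _ _ fun r => any_poly _ _ fun μ => test_poly r μ)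

/-- `S` is the stable side of the normalised split partition of `G`. -/
def NormSplit {V : Type} (G : SimpleGraph V) (S : Set V) : Prop :=
  G.IsIndepSet S ∧ G.IsClique Sᶜ ∧ ∀ x ∉ S, ∃ s ∈ S, G.Adj x s

/-- The function that lists the vertices. -/
def fn (M : List (List Bool)) (l : List ℕ) (hl : ∀ i ∈ l, i < M.length) {r : ℕ}
    (hr : l.length = r) : Fin r → Fin M.length :=
  fun i => ⟨l[i.1]'(by omega), hl _ (List.getElem_mem _)⟩

theorem range_fn (M : List (List Bool)) (l : List ℕ) (hl : ∀ i ∈ l, i < M.length) {r : ℕ}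
    (hr : l.length = r) (x : Fin M.length) : x ∈ Set.range (fn M l hl hr) ↔ x.1 ∈ l := by
  subst hr
  constructor
  · rintro ⟨i, rfl⟩
    exact List.getElem_mem _
  · intro h
    obtain ⟨i, hi, hix⟩ := List.getElem_of_mem h
    exact ⟨⟨i, hi⟩, Fin.ext hix⟩

theorem isNS_fn (M : List (List Bool)) (l : List ℕ) (hl : ∀ i ∈ l, i < M.length) {r : ℕ}
    (hr : l.length = r) (hnd : l.Nodup) (hok : okL (M, l) = true) :
    IsNS (matGraph M) r (fn M l hl hr) := by
  simp only [okL, Bool.and_eq_true, List.all_eq_true, List.mem_range, Bool.or_eq_true,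
    decide_eq_true_eq, Bool.not_eq_true', List.any_eq_true] at hok
  obtain ⟨⟨h1, h2⟩, h3⟩ := hok
  refine ⟨?_, ?_, ?_⟩
  · intro i j hij
    have : l[i.1]'(by omega) = l[j.1]'(by omega) := congrArg Fin.val hij
    exact Fin.ext ((hnd.getElem_inj_iff).1 this)
  · intro i j hadj
    have h4 := h1 _ (List.getElem_mem (l := l) (n := i.1) (by omega)) _
      (List.getElem_mem (l := l) (n := j.1) (by omega))
    have h5 := (adjB_iff M (fn M l hl hr i) (fn M l hl hr j)).2 hadj
    rw [show adjB M (l[i.1]'(by omega)) (l[j.1]'(by omega)) = true from h5] at h4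
    exact absurd h4 (by simp)
  · intro x y hx hy hxy
    rw [range_fn] at hx hy
    rw [← adjB_iff]
    rcases h2 x.1 x.2 with h | h
    · exact absurd h hx
    · rcases h y.1 y.2 with h | h | h
      · exact absurd h hy
      · exact absurd (Fin.ext h) hxy
      · exact h

theorem cntT_eq (M : List (List Bool)) (l : List ℕ) (hl : ∀ i ∈ l, i < M.length) {r : ℕ}
    (hr : l.length = r) (t : Fin r → Bool) :
    cntT (List.ofFn t) (M, l) = (cls (matGraph M) (fn M l hl hr) t).ncard := by
  classical
  unfold cntT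
  simp only
  set L := (List.range M.length).filter fun x => !decide (x ∈ l) &&
    decide (l.map (fun i => adjB M x i) = List.ofFn t) with hL
  have h1 : L.toFinset.card = L.length := List.toFinset_card_of_nodup (List.nodup_range.filter _)
  rw [← h1, ← Set.ncard_coe_finset, ← Set.ncard_image_of_injective _ Fin.val_injective]
  congr 1
  ext x
  simp only [hL, List.coe_toFinset, List.mem_filter, List.mem_range, Bool.and_eq_true,
    Bool.not_eq_true', decide_eq_false_iff_not, decide_eq_true_eq, Set.mem_ofPred_eq,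
    Set.mem_image]
  have key : ∀ (hx : x < M.length), (l.map (fun i => adjB M x i) = List.ofFn t ↔
      ∀ i, t i = true ↔ (matGraph M).Adj ⟨x, hx⟩ (fn M l hl hr i)) := by
    intro hx
    subst hr
    rw [List.ext_getElem_iff]
    simp only [List.length_map, List.length_ofFn, List.getElem_map, List.getElem_ofFn, true_and]
    constructor
    · intro h i
      rw [← adjB_iff, ← h i.1 i.2 i.2]
      rfl
    · intro h i h1 _
      have := h ⟨i, h1⟩
      rw [← adjB_iff] at this
      have h5 : adjB M x (l[i]) = true ↔ t ⟨i, h1⟩ = true := this.symm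
      cases ha : adjB M x (l[i]) <;> cases hb : t ⟨i, h1⟩ <;> simp_all
  constructor
  · rintro ⟨hx, h3, h4⟩
    refine ⟨⟨x, hx⟩, ⟨?_, (key hx).1 h4⟩, rfl⟩
    rw [range_fn]
    exact h3
  · rintro ⟨y, ⟨hy1, hy2⟩, rfl⟩
    rw [range_fn] at hy1
    exact ⟨y.2, hy1, (key y.2).2 hy2⟩

theorem alg_correct (k : ℕ) (M : List (List Bool)) :
    ((∃ S, NormSplit (matGraph M) S ∧ S.ncard ≤ k) ∧ IsCliqueGraph (matGraph M)) ↔
      alg k M = true := by
  classical
  simp only [alg, List.any_eq_true, Bool.and_eq_true, List.mem_range]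
  constructor
  · rintro ⟨⟨S, ⟨hS1, hS2, hS3⟩, hSk⟩, hc⟩
    -- the list of the elements of `S`
    let l : List ℕ := (List.range M.length).filter (fun i => decide (∃ h : i < M.length,
      (⟨i, h⟩ : Fin M.length) ∈ S))
    have hl : ∀ i ∈ l, i < M.length := by
      intro i hi
      rw [List.mem_filter, List.mem_range] at hi
      exact hi.1
    have hlS : ∀ x : Fin M.length, x.1 ∈ l ↔ x ∈ S := by
      intro x
      simp only [l, List.mem_filter, List.mem_range, decide_eq_true_eq]
      exact ⟨fun h => h.2.2, fun h => ⟨x.2, x.2, h⟩⟩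
    have hnd : l.Nodup := List.nodup_range.filter _
    have hlen : l.length = S.ncard := by
      rw [← List.toFinset_card_of_nodup hnd, ← Set.ncard_coe_finset,
        ← Set.ncard_image_of_injective S Fin.val_injective]
      congr 1
      ext x
      simp only [List.coe_toFinset, Set.mem_ofPred_eq, Set.mem_image]
      constructor
      · intro hx
        exact ⟨⟨x, hl x hx⟩, (hlS _).1 hx, rfl⟩
      · rintro ⟨y, hy, rfl⟩
        exact (hlS y).2 hy
    have hok : okL (M, l) = true := by
      simp only [okL, Bool.and_eq_true, List.all_eq_true, List.mem_range, Bool.or_eq_true,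
        decide_eq_true_eq, Bool.not_eq_true', List.any_eq_true]
      refine ⟨⟨?_, ?_⟩, ?_⟩
      · intro i hi j hj
        rw [← Bool.not_eq_true, adjB_iff M ⟨i, hl i hi⟩ ⟨j, hl j hj⟩]
        intro hadj
        exact hS1 ((hlS ⟨i, hl i hi⟩).1 hi) ((hlS ⟨j, hl j hj⟩).1 hj) hadj.ne hadj
      · intro x hx
        by_cases hxl : x ∈ l
        · exact Or.inl hxl
        · right
          intro y hy
          by_cases hyl : y ∈ l
          · exact Or.inl hyl
          · right
            by_cases hxy : x = y
            · exact Or.inl hxy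
            · right
              rw [adjB_iff M ⟨x, hx⟩ ⟨y, hy⟩]
              exact hS2 (fun h => hxl ((hlS ⟨x, hx⟩).2 h)) (fun h => hyl ((hlS ⟨y, hy⟩).2 h))
                (fun h => hxy (congrArg Fin.val h))
      · intro x hx
        by_cases hxl : x ∈ l
        · exact Or.inl hxl
        · right
          obtain ⟨s, hs, hxs⟩ := hS3 ⟨x, hx⟩ (fun h => hxl ((hlS ⟨x, hx⟩).2 h))
          exact ⟨s.1, (hlS s).2 hs, (adjB_iff M ⟨x, hx⟩ s).2 hxs⟩
    refine ⟨l, mem_tup.2 ⟨by omega, hnd, hl⟩, hok, l.length, by omega, ?_⟩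
    have hns := isNS_fn M l hl rfl hnd hok
    obtain ⟨μ, hμ, h1, h2⟩ := (exists_basis (goodVec l.length)).choose_spec.2
      (fun t => (cls (matGraph M) (fn M l hl rfl) t).ncard) ⟨_, _, _, hns, hc, fun _ => rfl⟩
    refine ⟨μ, hμ, ?_⟩
    simp only [test, decide_true, Bool.true_and, List.all_eq_true, Bool.and_eq_true,
      decide_eq_true_eq, Bool.or_eq_true, Bool.not_eq_true', decide_eq_false_iff_not]
    intro t _
    rw [cntT_eq M l hl rfl t]
    refine ⟨h1 t, ?_⟩
    by_cases h0 : μ t = 0
    · exact Or.inr (h2 t h0)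
    · exact Or.inl h0
  · rintro ⟨l, hl, hok, r, hr, μ, hμ, ht⟩
    obtain ⟨hlk, hnd, hl⟩ := mem_tup.1 hl
    simp only [test, List.all_eq_true, Bool.and_eq_true,
      decide_eq_true_eq, Bool.or_eq_true, Bool.not_eq_true', decide_eq_false_iff_not] at ht
    obtain ⟨hlr, ht⟩ := ht
    have hns := isNS_fn M l hl hlr hnd hok
    obtain ⟨n, G, l₀, g1, g2, g3⟩ := (exists_basis (goodVec r)).choose_spec.1 μ hμ
    have hok' := hok
    simp only [okL, Bool.and_eq_true, List.all_eq_true, List.mem_range, Bool.or_eq_true,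
      decide_eq_true_eq, Bool.not_eq_true', List.any_eq_true] at hok'
    obtain ⟨⟨h1, h2⟩, h3⟩ := hok'
    refine ⟨⟨Set.range (fn M l hl hlr), ⟨?_, ?_, ?_⟩, ?_⟩, ?_⟩
    · rintro _ ⟨i, rfl⟩ _ ⟨j, rfl⟩ _ hadj
      exact hns.indep i j hadj
    · intro x hx y hy hxy
      exact hns.clique x y hx hy hxy
    · intro x hx
      rw [range_fn] at hx
      rcases h3 x.1 x.2 with h | ⟨i, hi, h⟩
      · exact absurd h hx
      · exact ⟨⟨i, hl i hi⟩, (range_fn M l hl hlr ⟨i, hl i hi⟩).2 hi,
          (adjB_iff M x ⟨i, hl i hi⟩).1 h⟩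
    · rw [← Set.image_univ]
      refine (Set.ncard_image_le (Set.toFinite _)).trans ?_
      rw [Set.ncard_univ, Nat.card_eq_fintype_card, Fintype.card_fin]
      omega
    · refine isCliqueGraph_of_vec hns g1 ?_ ?_ g2
      · intro t
        rw [g3, ← cntT_eq M l hl hlr t]
        exact (ht t (by simp)).1
      · intro t h0
        rw [g3] at h0
        rw [← cntT_eq M l hl hlr t]
        exact (ht t (by simp)).2.resolve_left (fun h => h h0)

end Pool.Agent.Q323.SplitCG
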