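import Pool.Agent.H601R2.PCG.KFun

/-!
# Clique graphs are closed under the addition of true twins
-/

set_option autoImplicit false

namespace Pool.Agent.Q323.SplitCG

open Pool.Agent.H601R2.PCG

variable {V V₀ : Type} {G : SimpleGraph V} {G₀ : SimpleGraph V₀}

/-- If `G` is obtained from the clique graph `G₀` by blowing up each vertex to a nonempty complete
set, then `G` is a clique graph. -/
theorem isCliqueGraph_blow [Finite V] (π : V → V₀) (hπ : Function.Surjective π)
    (hG : ∀ a b, G.Adj a b ↔ a ≠ b ∧ (π a = π b ∨ G₀.Adj (π a) (π b)))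
    (h : IsCliqueGraph G₀) : IsCliqueGraph G := by
  classical
  obtain ⟨⟨v₀⟩, K, hK⟩ := good_of_isCliqueGraph h
  obtain ⟨v, -⟩ := hπ v₀
  have : Nonempty V := ⟨v⟩
  let K' : V → V → Set V := fun a b =>
    if π a = π b then {c | π c = π a} else {c | π c ∈ K (π a) (π b)}
  have k1 : ∀ a b, π a = π b → K' a b = {c | π c = π a} := fun a b h => if_pos h
  have k2 : ∀ a b, π a ≠ π b → K' a b = {c | π c ∈ K (π a) (π b)} := fun a b h => if_neg h
  have hadj : ∀ a b, G.Adj a b → π a ≠ π b → G₀.Adj (π a) (π b) := fun a b h hne =>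
    ((hG a b).1 h).2.resolve_left hne
  have hleft : ∀ a b, G.Adj a b → a ∈ K' a b := by
    intro a b hab
    by_cases h : π a = π b
    · rw [k1 a b h]
      rfl
    · rw [k2 a b h]
      exact hK.left _ _ (hadj a b hab h)
  have hsymm : ∀ a b, K' a b = K' b a := by
    intro a b
    by_cases h : π a = π b
    · rw [k1 a b h, k1 b a h.symm, h]
    · rw [k2 a b h, k2 b a (Ne.symm h), hK.symm]
  refine isCliqueGraph_of_good (K := K') ⟨hsymm, hleft, ?_, ?_, ?_⟩
  · -- complete
    intro a b hab x hx y hy hxy
    rw [hG]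
    refine ⟨hxy, ?_⟩
    by_cases h : π a = π b
    · rw [k1 a b h] at hx hy
      exact Or.inl (hx.trans hy.symm)
    · rw [k2 a b h] at hx hy
      by_cases hp : π x = π y
      · exact Or.inl hp
      · exact Or.inr (hK.complete _ _ (hadj a b hab h) hx hy hp)
  · -- monotone
    intro a b x y hab hx hy hxy c hc
    by_cases h : π a = π b
    · rw [k1 a b h] at hx hy ⊢
      rw [k1 x y (hx.trans hy.symm)] at hc
      exact Eq.trans hc hx
    · rw [k2 a b h] at hx hy ⊢
      by_cases hp : π x = π y
      · rw [k1 x y hp] at hc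
        have hc' : π c = π x := hc
        change π c ∈ K (π a) (π b)
        rw [hc']
        exact hx
      · rw [k2 x y hp] at hc
        exact hK.mono _ _ _ _ (hadj a b hab h) hx hy hp hc
  · -- triangles
    intro a b c hab hbc hac
    by_cases h1 : π a = π b
    · refine ⟨a, hleft a b hab, ?_, hleft a c hac⟩
      by_cases h2 : π b = π c
      · rw [k1 b c h2]
        exact h1
      · rw [k2 b c h2]
        change π a ∈ K (π b) (π c)
        rw [h1]
        exact hK.left _ _ (hadj b c hbc h2)
    · by_cases h2 : π b = π c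
      · refine ⟨b, ?_, hleft b c hbc, ?_⟩
        · rw [hsymm]
          exact hleft b a hab.symm
        · have h3 : π c ≠ π a := fun h => h1 (h2.trans h).symm
          rw [hsymm, k2 c a h3]
          change π b ∈ K (π c) (π a)
          rw [h2]
          exact hK.left _ _ (hadj c a hac.symm h3)
      · by_cases h3 : π a = π c
        · refine ⟨a, hleft a b hab, ?_, hleft a c hac⟩
          rw [hsymm, k2 c b (Ne.symm h2)]
          change π a ∈ K (π c) (π b)
          rw [h3]
          exact hK.left _ _ (hadj c b hbc.symm (Ne.symm h2))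
        · obtain ⟨v, v1, v2, v3⟩ := hK.tri _ _ _ (hadj a b hab h1) (hadj b c hbc h2)
            (hadj a c hac h3)
          obtain ⟨w, rfl⟩ := hπ v
          exact ⟨w, by rw [k2 a b h1]; exact v1, by rw [k2 b c h2]; exact v2,
            by rw [k2 a c h3]; exact v3⟩

/-- Finite sets: a surjection onto a nonempty set that is not larger. -/
theorem exists_surj {X Y : Type} [Finite X] [Finite Y] [Nonempty Y]
    (h : Nat.card Y ≤ Nat.card X) : ∃ f : X → Y, Function.Surjective f := by
  classical
  have := Fintype.ofFinite X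
  have := Fintype.ofFinite Y
  rw [Nat.card_eq_fintype_card, Nat.card_eq_fintype_card] at h
  obtain ⟨g⟩ := Function.Embedding.nonempty_of_card_le h
  exact ⟨Function.invFun g, Function.invFun_surjective g.injective⟩

/-- `S` lists, without repetitions, the stable side of a normalised split partition. -/
structure IsNS (G : SimpleGraph V) (r : ℕ) (l : Fin r → V) : Prop where
  inj : Function.Injective l
  indep : ∀ i j, ¬ G.Adj (l i) (l j)
  clique : ∀ x y, x ∉ Set.range l → y ∉ Set.range l → x ≠ y → G.Adj x y

/-- The vertices outside of the stable side of type `t`. -/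
def cls (G : SimpleGraph V) {r : ℕ} (l : Fin r → V) (t : Fin r → Bool) : Set V :=
  {x | x ∉ Set.range l ∧ ∀ i, t i = true ↔ G.Adj x (l i)}

/-- The blow-up argument for split graphs: the property to be a clique graph depends
monotonically on the numbers of vertices of the types that occur. -/
theorem isCliqueGraph_of_vec [Finite V] [Finite V₀] {r : ℕ} {l : Fin r → V} {l₀ : Fin r → V₀}
    (h : IsNS G r l) (h₀ : IsNS G₀ r l₀)
    (h1 : ∀ t, (cls G₀ l₀ t).ncard ≤ (cls G l t).ncard)
    (h2 : ∀ t, (cls G₀ l₀ t).ncard = 0 → (cls G l t).ncard = 0)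
    (hc : IsCliqueGraph G₀) : IsCliqueGraph G := by
  classical
  -- the maps between the classes
  have hf : ∀ t, ∃ f : cls G l t → V₀, (∀ x, f x ∈ cls G₀ l₀ t) ∧
      ∀ y ∈ cls G₀ l₀ t, ∃ x, f x = y := by
    intro t
    by_cases ht : (cls G₀ l₀ t).Nonempty
    · have : Nonempty (cls G₀ l₀ t) := ht.to_subtype
      obtain ⟨f, hf⟩ := exists_surj (X := cls G l t) (Y := cls G₀ l₀ t) (h1 t)
      refine ⟨fun x => (f x).1, fun x => (f x).2, fun y hy => ?_⟩
      obtain ⟨x, hx⟩ := hf ⟨y, hy⟩
      exact ⟨x, congrArg Subtype.val hx⟩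
    · have h3 : cls G₀ l₀ t = ∅ := Set.not_nonempty_iff_eq_empty.1 ht
      have h4 : (cls G l t).ncard = 0 := h2 t (by rw [h3]; simp)
      have h5 : cls G l t = ∅ := (Set.ncard_eq_zero (Set.toFinite _)).1 h4
      have h6 : IsEmpty (cls G l t) := by rw [h5]; infer_instance
      refine ⟨fun x => (h6.false x).elim, fun x => (h6.false x).elim, fun y hy => ?_⟩
      rw [h3] at hy
      exact absurd hy (Set.notMem_empty y)
  choose f hf1 hf2 using hf
  let tp : V → (Fin r → Bool) := fun x i => decide (G.Adj x (l i))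
  have htp : ∀ x, x ∉ Set.range l → x ∈ cls G l (tp x) := fun x hx => ⟨hx, fun i => by simp [tp]⟩
  let π : V → V₀ := fun x => if hx : x ∈ Set.range l then l₀ hx.choose else
    f (tp x) ⟨x, htp x hx⟩
  have hπ1 : ∀ i, π (l i) = l₀ i := by
    intro i
    have hx : l i ∈ Set.range l := ⟨i, rfl⟩
    have h3 : hx.choose = i := h.inj hx.choose_spec
    simp only [π, dif_pos hx, h3]
  have hπ2 : ∀ x (hx : x ∉ Set.range l), π x = f (tp x) ⟨x, htp x hx⟩ := by
    intro x hx
    simp only [π, dif_neg hx]
  have hπ3 : ∀ x, x ∉ Set.range l → π x ∈ cls G₀ l₀ (tp x) := by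
    intro x hx
    rw [hπ2 x hx]
    exact hf1 _ _
  refine isCliqueGraph_blow π ?_ ?_ hc
  · intro y
    by_cases hy : y ∈ Set.range l₀
    · obtain ⟨i, rfl⟩ := hy
      exact ⟨l i, hπ1 i⟩
    · let t : Fin r → Bool := fun i => decide (G₀.Adj y (l₀ i))
      have hyt : y ∈ cls G₀ l₀ t := ⟨hy, fun i => by simp [t]⟩
      obtain ⟨x, hx⟩ := hf2 t y hyt
      have hx1 : x.1 ∉ Set.range l := x.2.1
      have hx2 : tp x.1 = t := by
        funext i
        have := x.2.2 i
        by_cases hadj : G.Adj x.1 (l i)
        · rw [this.2 hadj]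
          simp [tp, hadj]
        · have h3 : t i = false := by
            cases hti : t i
            · rfl
            · exact absurd (this.1 hti) hadj
          rw [h3]
          simp [tp, hadj]
      refine ⟨x.1, ?_⟩
      rw [hπ2 x.1 hx1, ← hx]
      have key : ∀ (s : Fin r → Bool) (hs : x.1 ∈ cls G l s), s = t →
          f s ⟨x.1, hs⟩ = f t x := by
        rintro s hs rfl
        rfl
      exact key _ _ hx2
  · intro a b
    by_cases ha : a ∈ Set.range l
    · obtain ⟨i, rfl⟩ := ha
      by_cases hb : b ∈ Set.range l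
      · obtain ⟨j, rfl⟩ := hb
        rw [hπ1, hπ1]
        constructor
        · intro h3
          exact absurd h3 (h.indep i j)
        · rintro ⟨h3, h4 | h4⟩
          · exact absurd (by rw [h₀.inj h4]) h3
          · exact absurd h4 (h₀.indep i j)
      · have h3 := hπ3 b hb
        have h4 : (G.Adj b (l i) ↔ G₀.Adj (π b) (l₀ i)) := by
          rw [← h3.2 i]
          simp [tp]
        rw [hπ1, G.adj_comm, h4, G₀.adj_comm]
        constructor
        · intro h5
          exact ⟨fun h6 => hb ⟨i, h6⟩, Or.inr h5⟩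
        · rintro ⟨_, h5 | h5⟩
          · exact absurd ⟨i, h5⟩ h3.1
          · exact h5
    · have h3 := hπ3 a ha
      by_cases hb : b ∈ Set.range l
      · obtain ⟨i, rfl⟩ := hb
        have h4 : (G.Adj a (l i) ↔ G₀.Adj (π a) (l₀ i)) := by
          rw [← h3.2 i]
          simp [tp]
        rw [hπ1, h4]
        constructor
        · intro h5
          exact ⟨fun h6 => ha ⟨i, h6.symm⟩, Or.inr h5⟩
        · rintro ⟨_, h5 | h5⟩
          · exact absurd ⟨i, h5.symm⟩ h3.1
          · exact h5
      · have h5 := hπ3 b hb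
        constructor
        · intro h6
          refine ⟨h6.ne, ?_⟩
          by_cases h7 : π a = π b
          · exact Or.inl h7
          · exact Or.inr (h₀.clique _ _ h3.1 h5.1 h7)
        · rintro ⟨h6, _⟩
          exact h.clique _ _ ha hb h6

end Pool.Agent.Q323.SplitCG
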